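import Pool.Agent.H946_NS.H11

/-!
A regularity criterion for smooth periodic solutions of the Navier-Stokes equations, with a condition
in one ball only: a ball in which the local enstrophy is the largest. The condition is one of four,
may be a different one at each time, and is needed only at a positive proportion of the levels of the
largest local enstrophy.

`V = Fin 3 → ℝ` with the maximum norm. See the claim file for the definitions.
-/

open MeasureTheory Set Metric Filter Topology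
open scoped ContDiff ENNReal

namespace Pool.Agent.Results.MP_6bf1e5_an.OneBallAlternatives

open H459R3.NS W221.NS Pool.Agent.H946.NS

/-- For every cut-off function `κ` there is an `ε > 0` with the following property. Let `(u, p)` be a
smooth periodic solution with viscosity `ν` on `[0, T)`, let `r ≤ 1` be a non-increasing positive
function of the time, `θ > 0`, `S` a measurable set of real numbers such that the measure of the part
of `S` in `(0, a)` is at least `θ a - C` for all `a ≥ 0`, and `g ≥ 0` a rate such that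
`(T - t) ^ 5 ≤ r t ^ 9` and the integral of `g` from `t₀` to `t` is at most
`ε θ log (1 / (T - t)) + K` for some `t` arbitrarily close to `T`. Suppose that at almost all times `t`
in `(t₀, T)` at which the largest enstrophy localised at the scale `r = r t` is at least as large as
at all earlier times, and its logarithm is in `S`, `ν / r ^ 2 ≤ g t` and one of the points `x` in which
it is attained has one of the following properties, where `D` is the integral of `|∇u|²` over the ball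
`B(x, 8 r)`.
* In `B(x, r)`, `|∂ᵢ bⱼ| ≤ m` and the vector `Y = (u - b) × ω - ∇q` satisfies
  `Y · curl ω ≤ (l + h) |ω| |∇ω|` and `|Y| ≤ a |ω|`, where the norms of `h ≥ 0` and `a ≥ 0` in `L³` are
  at most `ε ν` and `k`, and `l ^ 2 / ν + m + k ^ 2 / (ν r ^ 2) ≤ g t`.
* At the points `y` of `B(x, r)` at which `|ω| > Λ` and `ω · (ω · ∇) u > (Λ + h ^ 2) |∇u|²` the sine
  of the angle with the vorticity at the points `z` of `B(x, 2 r)` at which `|ω| > l` is at most
  `ρ |y - z| ^ (1 / 2)`, the norm of `h ≥ 0` in `L³` is at most `ε √ν`, and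
  `Λ + (1 / r + ρ ^ 2 + r ^ 3 l ^ 2 / ν ^ 2) D / ν ≤ g t`.
* In `B(x, r)`, `ω · (ω · ∇) u ≤ c det ∇u + (L + h ^ 2) |∇u|²` for a number `c` between `-4` and `4`,
  the norm of `h ≥ 0` in `L³` is at most `ε √ν`, and `L + D / (r ν) ≤ g t`.
* For a unit vector `a`, the integral `P` of `|ω × a|²` over `B(x, 5 r)` satisfies
  `P ^ 2 / ν ^ 3 + D / (r ν) ≤ g t`.
Then the solution has no singular point at the time `T`. -/
theorem result (κ : V → ℝ) (hκ : Cut κ) : ∃ ε : ℝ, 0 < ε ∧ ∀ (ν T t₀ K θ C : ℝ) (S : Set ℝ)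
    (u : ℝ → V → V) (p : ℝ → V → ℝ) (r g : ℝ → ℝ), 0 < ν → IsSol ν T u p → t₀ ∈ Ioo 0 T →
      0 < θ → MeasurableSet S → (∀ a, 0 ≤ a → θ * a - C ≤ (volume (S ∩ Ioo 0 a)).toReal) →
      AntitoneOn r (Ico t₀ T) → (∀ t ∈ Ico t₀ T, 0 < r t ∧ r t ≤ 1) →
      (∀ t ∈ Ioo t₀ T, IntegrableOn g (Ioo t₀ t)) →
      (∀ᵐ t ∂((volume : Measure ℝ).restrict (Ioo t₀ T)), 0 ≤ g t ∧
        ((∀ s ∈ Ioo t₀ t, ∀ y, ∃ x, loc κ (r s) (u s) y ≤ loc κ (r t) (u t) x) →
          (∀ x, (∀ y, loc κ (r t) (u t) y ≤ loc κ (r t) (u t) x) →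
            Real.log (loc κ (r t) (u t) x) ∈ S) →
          ν / r t ^ 2 ≤ g t ∧ ∃ x, (∀ y, loc κ (r t) (u t) y ≤ loc κ (r t) (u t) x) ∧
            ((∃ l m k : ℝ, 0 ≤ l ∧ 0 ≤ m ∧ 0 ≤ k ∧ l ^ 2 / ν + m + k ^ 2 / (ν * r t ^ 2) ≤ g t ∧
                Lmb (ε * ν) l m k (r t) x (u t)) ∨
              (∃ ρ Λ l : ℝ, 0 ≤ ρ ∧ 0 ≤ Λ ∧ 0 ≤ l ∧
                Λ + (1 / r t + ρ ^ 2 + r t ^ 3 * l ^ 2 / ν ^ 2)
                  * (∫ y in ball x (8 * r t), gsq (u t) y) / ν ≤ g t ∧
                CohS (ε * √ν) ρ Λ l (r t) x (u t)) ∨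
              (∃ L : ℝ, 0 ≤ L ∧ L + (∫ y in ball x (8 * r t), gsq (u t) y) / (r t * ν) ≤ g t ∧
                Prd (ε * √ν) L (r t) x (u t)) ∨
              (∃ a : V, ∑ j, a j ^ 2 = 1 ∧
                (∫ y in ball x (5 * r t), xsq (vort (u t) y) a) ^ 2 / ν ^ 3
                  + (∫ y in ball x (8 * r t), gsq (u t) y) / (r t * ν) ≤ g t)))) →
      (∃ᶠ t in 𝓝[<] T, (T - t) ^ 5 ≤ r t ^ 9 ∧
        ∫ s in Ioo t₀ t, g s ≤ ε * θ * Real.log (1 / (T - t)) + K) →
      ∀ x, ¬ Sing T u x :=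
  alt_lev hκ

end Pool.Agent.Results.MP_6bf1e5_an.OneBallAlternatives
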