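import Pool.Agent.H946_NS.Fin

/-!
Concentration of the vorticity at every singular point of a solution of the Navier-Stokes equations
at its first blow-up time, at all times close to the blow-up time and at all small scales.

`V = Fin 3 → ℝ` with the maximum norm. See the claim file for the definitions.
-/

open MeasureTheory Set Metric Filter Topology
open scoped ContDiff ENNReal

namespace Pool.Agent.Results.MP_6bf1e5_an.VorticityConcentration

open H459R3.NS W221.NS Pool.Agent.H946.NS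

/-- There is an absolute constant `c` such that for every smooth solution with viscosity `ν` on
`(0, T) × Ω` with bounded energy and finite dissipation, every compact set `K` in `Ω` and every
`η > 0`: at all times `t` close to `T`, around every singular point `x₀` in `K`, and for all
`r ≤ (ν (T - t)) ^ (1 / 2) log (1 / (T - t)) ^ (2 / 3)`, the integral of the square of the vorticity
over some ball of radius `r` in the ball with centre `x₀` and radius `η` is at least
`c r³ / ((T - t)² log (1 / (T - t))²)`. -/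
theorem result : ∃ c : ℝ, 0 < c ∧ ∀ (ν T E : ℝ) (Ω K : Set V) (u : ℝ → V → V) (p : ℝ → V → ℝ),
    0 < ν → 0 < T → OSol ν T E Ω u p →
      ∫⁻ t in Ioo 0 T, ∫⁻ y in Ω, ENNReal.ofReal (gsq (u t) y) ≠ ⊤ → IsCompact K → K ⊆ Ω →
        ∀ η : ℝ, 0 < η → ∃ δ : ℝ, 0 < δ ∧ ∀ t ∈ Ioo (T - δ) T, ∀ x₀ ∈ K, Sing T u x₀ →
          ∀ r : ℝ, 0 < r → r ^ 3 ≤ √(ν * (T - t)) ^ 3 * Real.log (1 / (T - t)) ^ 2 →
            ∃ x : V, ball x r ⊆ Ω ∩ ball x₀ η ∧
              c * r ^ 3 / ((T - t) ^ 2 * Real.log (1 / (T - t)) ^ 2)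
                ≤ ∫ y in ball x r, vsq (u t) y := by
  obtain ⟨c, hc, H⟩ := conc_nu
  refine ⟨c, hc, ?_⟩
  intro ν T E Ω K u p hν hT hu hfin hK hKΩ η hη
  have htb : TotallyBounded {x | x ∈ K ∧ Sing T u x} :=
    hK.totallyBounded.subset fun x hx => hx.1
  obtain ⟨N, hNs, hNf, hN⟩ := finite_approx_of_totallyBounded htb (η / 2) (by positivity)
  have hev : ∀ y ∈ N, ∀ᶠ t in 𝓝[<] T, ∀ r : ℝ, 0 < r →
      r ^ 3 ≤ √(ν * (T - t)) ^ 3 * Real.log (1 / (T - t)) ^ 2 →
          ∃ x ∈ ball y (η / 2), ball x r ⊆ Ω ∩ ball y (η / 2) ∧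
            c * r ^ 3 / ((T - t) ^ 2 * Real.log (1 / (T - t)) ^ 2)
              < ∫ z in ball x r, vsq (u t) z := by
    intro y hy
    obtain ⟨δ, hδ, h⟩ := H ν T E Ω u p hν hT hu hfin y (hKΩ (hNs hy).1) (hNs hy).2 (η / 2)
      (by positivity)
    have hmem : Ioo (T - δ) T ∈ 𝓝[<] T := Ioo_mem_nhdsLT (by linarith)
    filter_upwards [hmem] with t ht
    exact h t ht
  have hall := (Filter.eventually_all_finite hNf).2 hev
  obtain ⟨a, ha, hsub⟩ := mem_nhdsLT_iff_exists_Ioo_subset.1 hall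
  have ha' : a < T := ha
  refine ⟨T - a, by linarith, ?_⟩
  intro t ht x₀ hx₀ hS r hr hr3
  obtain ⟨y, hy, hxy⟩ := mem_iUnion₂.1 (hN ⟨hx₀, hS⟩)
  have ht' : t ∈ Ioo a T := ⟨by linarith [ht.1], ht.2⟩
  obtain ⟨x, -, hxr, hlt⟩ := hsub ht' y hy r hr hr3
  refine ⟨x, fun z hz => ⟨(hxr hz).1, ?_⟩, hlt.le⟩
  have h1 := (hxr hz).2
  rw [mem_ball] at h1 hxy ⊢
  rw [dist_comm] at hxy
  linarith [dist_triangle z y x₀]

end Pool.Agent.Results.MP_6bf1e5_an.VorticityConcentration
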